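import Pool.Agent.H62.SelTop

/-!
# Doubling a `γ`-set that is not a strong `γ`-set

ZFC: if a set of reals `X` satisfies `S₁(Ω, Γ)` but not `S₁((𝒪ₙ)ₙ, Γ)`, then there is a set of
reals `Y` (two disjoint clopen copies of `X`) which satisfies `S₁(Ω, T)` but not `S₁((𝒪ₙ)ₙ, T)`.
-/

set_option autoImplicit false

open Set Filter Topology Pool.Agent.H62.Sel

namespace Pool.Agent.Results.MP_a930b8_gt.TauDoubling

universe u v

section Main

variable {X : Type u} [TopologicalSpace X] {α : Type v} [TopologicalSpace α]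

/-- `γ`-sets are preserved by doubling. -/
theorem gamma_double [T1Space X] [Infinite X] (e : α ≃ₜ X × Bool)
    (h : S1 (fun _ => OmegaCovers X) (GammaCovers X)) :
    S1 (fun _ => OmegaCovers α) (GammaCovers α) := by
  classical
  intro 𝒱 h𝒱
  obtain ⟨p, hp⟩ := Infinite.natEmbedding X
  -- trace of `V` on `X`
  let tr : Set α → Set X := fun V => {x | e.symm (x, true) ∈ V ∧ e.symm (x, false) ∈ V}
  have htr_open : ∀ V, IsOpen V → IsOpen (tr V) := fun V hV =>
    (hV.preimage (by fun_prop)).inter (hV.preimage (by fun_prop))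
  let 𝒢 : Set (Set X) := {G | ∃ (n : ℕ) (V : ℕ → Set α), (∀ j ≤ n, V j ∈ 𝒱 j) ∧
    G = (⋂ j ∈ Finset.range (n + 1), tr (V j)) \ {p n}}
  have h𝒢cov : ∀ F : Finset X, ∃ G ∈ 𝒢, (F : Set X) ⊆ G := by
    intro F
    obtain ⟨n, hn⟩ : ∃ n, p n ∉ F := by
      by_contra hcon
      push Not at hcon
      exact infinite_range_of_injective hp (F.finite_toSet.subset (range_subset_iff.2 hcon))
    have h1 : ∀ j, ∃ V ∈ 𝒱 j, (F : Set X) ⊆ tr V := by
      intro j
      obtain ⟨V, hV, hFV⟩ := (h𝒱 j).2 ((F ×ˢ (Finset.univ : Finset Bool)).image e.symm)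
      refine ⟨V, hV, fun x hx => ⟨hFV ?_, hFV ?_⟩⟩ <;>
      · simp only [Finset.coe_image, mem_image]
        exact ⟨_, by simpa using hx, rfl⟩
    choose V hV hFV using h1
    refine ⟨_, ⟨n, V, fun j _ => hV j, rfl⟩, fun x hx => ⟨?_, ?_⟩⟩
    · rw [mem_iInter₂]
      exact fun j _ => hFV j hx
    · rintro rfl
      exact hn hx
  have h𝒢 : 𝒢 ∈ OmegaCovers X := by
    refine ⟨⟨?_, ?_, ?_⟩, h𝒢cov⟩
    · refine eq_univ_of_forall fun x => ?_
      obtain ⟨G, hG, hx⟩ := h𝒢cov {x}
      exact ⟨G, hG, hx (by simp)⟩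
    · rintro ⟨n, V, -, hG⟩
      have : p n ∈ (univ : Set X) := mem_univ _
      rw [hG] at this
      exact this.2 rfl
    · rintro _ ⟨n, V, hV, rfl⟩
      refine IsOpen.sdiff ?_ isClosed_singleton
      exact isOpen_biInter_finset fun j hj =>
        htr_open _ ((h𝒱 j).1.2.2 _ (hV j (by have := Finset.mem_range.1 hj; omega)))
  obtain ⟨G, hG, hGγ⟩ := h (fun _ => 𝒢) (fun _ => h𝒢)
  choose n V hV hGV using hG
  -- an injective enumeration of the members
  let emb : ℕ ↪ range G := hGγ.2.1.natEmbedding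
  have hg : ∀ k, ∃ i, G i = emb k := fun k => (emb k).2
  choose g hg using hg
  have hginj : Function.Injective fun k => G (g k) := by
    intro k l hkl
    apply emb.injective
    apply Subtype.ext
    rw [← hg k, ← hg l]
    exact hkl
  have hfin : ∀ x, {k | x ∉ G (g k)}.Finite := by
    intro x
    refine Set.Finite.of_finite_image ((hGγ.2.2 x).subset ?_) hginj.injOn
    rintro _ ⟨k, hk, rfl⟩
    exact ⟨⟨_, rfl⟩, hk⟩
  have hev : ∀ j, ∀ᶠ k in atTop, j ≤ n (g k) := by
    intro j
    have h1 : ∀ m ∈ Set.Iio j, {k | n (g k) = m}.Finite := by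
      intro m _
      refine (hfin (p m)).subset ?_
      rintro k rfl hk
      rw [hGV] at hk
      exact hk.2 rfl
    have h2 : {k | n (g k) < j}.Finite := by
      refine ((Set.finite_Iio j).biUnion h1).subset ?_
      intro k hk
      exact mem_biUnion (show n (g k) ∈ Set.Iio j from hk) rfl
    obtain ⟨N, hN⟩ := h2.bddAbove
    filter_upwards [eventually_gt_atTop N] with k hk
    by_contra hcon
    exact absurd (hN (not_le.1 hcon)) (not_le.2 hk)
  obtain ⟨θ, hθ, hθj⟩ := extraction_forall_of_eventually hev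
  refine ⟨fun j => V (g (θ j)) j, fun j => hV _ _ (hθj j), ?_⟩
  refine gamma_of_eventually (fun j hj => (h𝒱 j).1.2.1 (hj ▸ hV _ _ (hθj j)))
    (fun j => (h𝒱 j).1.2.2 _ (hV _ _ (hθj j))) fun v => ?_
  obtain ⟨N, hN⟩ := (hfin (e v).1).bddAbove
  filter_upwards [eventually_gt_atTop N] with j hj
  have h1 : (e v).1 ∈ G (g (θ j)) := by
    by_contra hcon
    have h2 := hN hcon
    have h3 := hθ.id_le j
    simp only [id] at h3
    omega
  rw [hGV] at h1
  have h2 := h1.1
  rw [mem_iInter₂] at h2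
  have h3 := h2 j (Finset.mem_range.2 (by have := hθj j; omega))
  have h4 : v = e.symm ((e v).1, (e v).2) := by simp
  cases hb : (e v).2 with
  | true => rw [h4, hb]; exact h3.1
  | false => rw [h4, hb]; exact h3.2

/-- In an infinite space, an `n`-cover captures every set with at most `n` points. -/
lemma capture [Infinite X] {n : ℕ} {𝒰 : Set (Set X)} (h : 𝒰 ∈ OpenNCovers X n) (F : Finset X)
    (hF : F.card ≤ n) : ∃ U ∈ 𝒰, (F : Set X) ⊆ U := by
  obtain ⟨F', hFF', hF'⟩ := Infinite.exists_superset_card_eq F n hF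
  obtain ⟨U, hU, hsub⟩ := h.2 F' hF'
  exact ⟨U, hU, (Finset.coe_subset.2 hFF').trans hsub⟩

/-- If the double of `X` satisfies `S₁((𝒪ₙ)ₙ, T)`, then `X` satisfies `S₁((𝒪ₙ)ₙ, Γ)`. -/
theorem strong_of_double [T1Space X] [Infinite X] (e : α ≃ₜ X × Bool)
    (h : S1 (fun n => OpenNCovers α n) (TauCovers α)) :
    S1 (fun n => OpenNCovers X n) (GammaCovers X) := by
  classical
  intro 𝒰 h𝒰
  obtain ⟨p, hp⟩ := Infinite.natEmbedding X
  -- the blocks of points
  let P : ℕ → Finset X := fun m => (Finset.range (m + 2)).image fun j => p (Nat.pair m j)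
  have hPcard : ∀ m, (P m).card = m + 2 := by
    intro m
    rw [Finset.card_image_of_injective _ (fun a b hab => by
      have := hp hab
      exact (Nat.pair_eq_pair.1 this).2), Finset.card_range]
  let B : ℕ → Finset X := fun m => (Finset.range m).biUnion P
  have hPB : ∀ m m', m < m' → P m ⊆ B m' := fun m m' hmm' =>
    Finset.subset_biUnion_of_mem P (Finset.mem_range.2 hmm')
  have hdisj : ∀ m, ∀ q ∈ P m, q ∉ B m := by
    intro m q hq hqB
    simp only [B, Finset.mem_biUnion, Finset.mem_range, P, Finset.mem_image] at hq hqB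
    obtain ⟨j, -, rfl⟩ := hq
    obtain ⟨l, hl, j', -, hj'⟩ := hqB
    have h1 := (Nat.pair_eq_pair.1 (hp hj')).1
    omega
  -- the block boundaries
  let k : ℕ → ℕ := fun m => (∑ l ∈ Finset.range (m + 1), (B l).card) + m + 1
  have hk : StrictMono k := by
    refine strictMono_nat_of_lt_succ fun m => ?_
    simp only [k, Finset.sum_range_succ]
    omega
  have hkB : ∀ m, (B m).card + m + 1 ≤ k m := by
    intro m
    simp only [k, Finset.sum_range_succ]
    omega
  -- admissible selections in the block `m`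
  let Adm : ℕ → (ℕ → Set X) → Prop := fun m U =>
    ∀ j ∈ Finset.Ico (k m) (k (m + 2)), U j ∈ 𝒰 j ∧ (B m : Set X) ⊆ U j
  let W : ℕ → (ℕ → Set X) → X → Set X := fun m U q =>
    (⋂ j ∈ Finset.Ico (k m) (k (m + 2)), U j) \ {q}
  have hW_open : ∀ m U q, Adm m U → IsOpen (W m U q) := by
    intro m U q hU
    refine IsOpen.sdiff (isOpen_biInter_finset fun j hj => ?_) isClosed_singleton
    exact (h𝒰 j).1.2.2 _ (hU j hj).1
  have hW_B : ∀ m U, Adm m U → ∀ q ∈ P m, (B m : Set X) ⊆ W m U q := by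
    intro m U hU q hq x hx
    refine ⟨?_, ?_⟩
    · rw [mem_iInter₂]
      exact fun j hj => (hU j hj).2 hx
    · rintro rfl
      exact hdisj m _ hq hx
  have hW_cov : ∀ m (F : Finset X), F.card ≤ m + 1 →
      ∃ U q, Adm m U ∧ q ∈ P m ∧ (F : Set X) ⊆ W m U q := by
    intro m F hF
    obtain ⟨q, hq, hqF⟩ : ∃ q ∈ P m, q ∉ F := by
      apply Finset.exists_mem_notMem_of_card_lt_card
      rw [hPcard]; omega
    have h1 : ∀ j, ∃ U, j ∈ Finset.Ico (k m) (k (m + 2)) →
        U ∈ 𝒰 j ∧ ((F ∪ B m : Finset X) : Set X) ⊆ U := by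
      intro j
      by_cases hj : j ∈ Finset.Ico (k m) (k (m + 2))
      · obtain ⟨U, hU⟩ := capture (h𝒰 j) (F ∪ B m) (by
          have h2 := Finset.card_union_le F (B m)
          have h3 := hkB m
          have h4 := (Finset.mem_Ico.1 hj).1
          omega)
        exact ⟨U, fun _ => hU⟩
      · exact ⟨∅, fun h => (hj h).elim⟩
    choose U hU using h1
    refine ⟨U, q, fun j hj => ⟨(hU j hj).1, fun x hx => (hU j hj).2 ?_⟩, hq, fun x hx => ⟨?_, ?_⟩⟩
    · simp only [Finset.coe_union]
      exact Or.inr hx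
    · rw [mem_iInter₂]
      intro j hj
      refine (hU j hj).2 ?_
      simp only [Finset.coe_union]
      exact Or.inl hx
    · rintro rfl
      exact hqF hx
  -- the covers of `α`
  let T : ℕ → Set X → Set α := fun m S => {v | (e v).2 = decide (m % 2 = 0) → (e v).1 ∈ S}
  have hT_open : ∀ m S, IsOpen S → IsOpen (T m S) := by
    intro m S hS
    have h1 : T m S = {v | (e v).2 ≠ decide (m % 2 = 0)} ∪ {v | (e v).1 ∈ S} := by
      ext v
      simp only [T, mem_ofPred_eq, mem_union]
      tauto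
    rw [h1]
    refine IsOpen.union ?_ (hS.preimage (by fun_prop))
    have h2 : IsOpen {b : Bool | b ≠ decide (m % 2 = 0)} := isOpen_discrete _
    exact h2.preimage (by fun_prop : Continuous fun v => (e v).2)
  let 𝒱 : ℕ → Set (Set α) := fun m => {V | ∃ U q, Adm m U ∧ q ∈ P m ∧ V = T m (W m U q)}
  have h𝒱cov : ∀ m (F : Finset α), F.card ≤ m + 1 → ∃ V ∈ 𝒱 m, (F : Set α) ⊆ V := by
    intro m F hF
    obtain ⟨U, q, hU, hq, hsub⟩ := hW_cov m (F.image fun v => (e v).1)
      (Finset.card_image_le.trans hF)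
    refine ⟨_, ⟨U, q, hU, hq, rfl⟩, fun v hv _ => hsub ?_⟩
    simp only [Finset.coe_image]
    exact ⟨v, hv, rfl⟩
  have h𝒱 : ∀ m, 𝒱 m ∈ OpenNCovers α m := by
    intro m
    refine ⟨⟨?_, ?_, ?_⟩, fun F hF => h𝒱cov m F (by omega)⟩
    · refine eq_univ_of_forall fun v => ?_
      obtain ⟨V, hV, hv⟩ := h𝒱cov m {v} (by simp)
      exact ⟨V, hV, hv (by simp)⟩
    · rintro ⟨U, q, -, -, hV⟩
      have h1 : e.symm (q, decide (m % 2 = 0)) ∈ T m (W m U q) := by
        rw [← hV]; exact mem_univ _
      have h2 : q ∈ W m U q := by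
        simpa [T] using h1
      exact h2.2 rfl
    · rintro _ ⟨U, q, hU, -, rfl⟩
      exact hT_open _ _ (hW_open m U q hU)
  obtain ⟨V, hV, hVT⟩ := h 𝒱 h𝒱
  choose U q hU hq hVW using hV
  -- members of the same parity are distinct
  have hne : ∀ m m', m < m' → W m (U m) (q m) ≠ W m' (U m') (q m') := by
    intro m m' hmm' heq
    have h1 : q m ∈ W m' (U m') (q m') := hW_B m' _ (hU m') _ (hq m') (hPB m m' hmm' (hq m))
    rw [← heq] at h1
    exact h1.2 rfl
  have hTinj : ∀ m m', m % 2 = m' % 2 → V m = V m' → m = m' := by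
    intro m m' hpar heq
    by_contra hmm'
    have h1 : W m (U m) (q m) = W m' (U m') (q m') := by
      ext x
      have h2 : e.symm (x, decide (m % 2 = 0)) ∈ V m ↔ e.symm (x, decide (m % 2 = 0)) ∈ V m' := by
        rw [heq]
      rw [hVW m, hVW m'] at h2
      simpa [T, hpar] using h2
    rcases Nat.lt_or_gt_of_ne hmm' with hlt | hgt
    · exact hne _ _ hlt h1
    · exact hne _ _ hgt h1.symm
  -- dichotomy
  have hdich : ∃ r < 2, ∀ x, {i | x ∉ W (2 * i + r) (U (2 * i + r)) (q (2 * i + r))}.Finite := by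
    by_cases hall : ∀ x, {i | x ∉ W (2 * i + 0) (U (2 * i + 0)) (q (2 * i + 0))}.Finite
    · exact ⟨0, by omega, hall⟩
    · push Not at hall
      obtain ⟨x, hx⟩ := hall
      refine ⟨1, by omega, fun y => ?_⟩
      rcases hVT.2.2 (e.symm (x, true)) (e.symm (y, false)) with h1 | h1
      · refine Set.Finite.of_finite_image (f := fun i => V (2 * i + 1)) (h1.subset ?_) ?_
        · rintro _ ⟨i, hi, rfl⟩
          refine ⟨⟨_, rfl⟩, ?_, ?_⟩
          · beta_reduce
            rw [hVW]
            intro hb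
            simp at hb
          · beta_reduce
            rw [hVW]
            intro hb
            exact hi (by simpa [T] using hb)
        · intro i _ j _ hij
          have := hTinj _ _ (by omega) hij
          omega
      · exfalso
        apply hx
        refine Set.Finite.of_finite_image (f := fun i => V (2 * i + 0)) (h1.subset ?_) ?_
        · rintro _ ⟨i, hi, rfl⟩
          refine ⟨⟨_, rfl⟩, ?_, ?_⟩
          · beta_reduce
            rw [hVW]
            intro hb
            simp at hb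
          · beta_reduce
            rw [hVW]
            intro hb
            exact hi (by simpa [T] using hb)
        · intro i _ j _ hij
          have := hTinj _ _ (by omega) hij
          omega
  obtain ⟨r, hr, hfin⟩ := hdich
  -- block index
  have hblock : ∀ j, ∃ i, k r ≤ j → j ∈ Finset.Ico (k (2 * i + r)) (k (2 * i + r + 2)) := by
    intro j
    induction j with
    | zero =>
      refine ⟨0, fun h0 => ?_⟩
      have h1 := hkB r
      omega
    | succ j ih =>
      obtain ⟨i, hi⟩ := ih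
      by_cases h0 : k r ≤ j
      · have h1 := Finset.mem_Ico.1 (hi h0)
        by_cases h2 : j + 1 < k (2 * i + r + 2)
        · exact ⟨i, fun _ => Finset.mem_Ico.2 ⟨by omega, h2⟩⟩
        · refine ⟨i + 1, fun _ => Finset.mem_Ico.2 ?_⟩
          have h3 : k (2 * (i + 1) + r) = k (2 * i + r + 2) := by congr 1; omega
          have h4 : k (2 * i + r + 2) < k (2 * (i + 1) + r + 2) := hk (by omega)
          omega
      · refine ⟨0, fun h1 => Finset.mem_Ico.2 ?_⟩
        have h2 : k (2 * 0 + r) < k (2 * 0 + r + 2) := hk (by omega)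
        have h3 : k (2 * 0 + r) = k r := by congr 1; omega
        omega
  choose ι hι using hblock
  have h0 : ∀ j, ∃ U, U ∈ 𝒰 j := fun j => by
    obtain ⟨U, hU, -⟩ := capture (h𝒰 j) ∅ (by simp)
    exact ⟨U, hU⟩
  choose U0 hU0 using h0
  let R : ℕ → Set X := fun j => if k r ≤ j then U (2 * ι j + r) j else U0 j
  have hR : ∀ j, R j ∈ 𝒰 j := by
    intro j
    simp only [R]
    split_ifs with hj
    · exact (hU _ j (hι j hj)).1
    · exact hU0 j
  refine ⟨R, hR, gamma_of_eventually (fun j hj => (h𝒰 j).1.2.1 (hj ▸ hR j))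
    (fun j => (h𝒰 j).1.2.2 _ (hR j)) fun x => ?_⟩
  obtain ⟨N, hN⟩ := (hfin x).bddAbove
  filter_upwards [eventually_ge_atTop (k (2 * (N + 1) + r))] with j hj
  have hkr : k r ≤ j := (hk.monotone (by omega)).trans hj
  have h1 := Finset.mem_Ico.1 (hι j hkr)
  have h2 : N < ι j := by
    by_contra hcon
    have h3 : k (2 * ι j + r + 2) ≤ k (2 * (N + 1) + r) := hk.monotone (by omega)
    omega
  have h3 : x ∈ W (2 * ι j + r) (U (2 * ι j + r)) (q (2 * ι j + r)) := by
    by_contra hcon
    exact absurd (hN hcon) (not_le.2 h2)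
  have h4 := h3.1
  rw [mem_iInter₂] at h4
  simp only [R, hkr, if_true]
  exact h4 j (hι j hkr)

end Main

/-- two copies of the line inside the punctured line -/
noncomputable def two (p : ℝ × Bool) : {y : ℝ // y ≠ 0} :=
  if p.2 then ⟨Real.exp p.1, (Real.exp_pos _).ne'⟩ else
    ⟨-Real.exp p.1, neg_ne_zero.2 (Real.exp_pos _).ne'⟩

lemma two_embedding : IsEmbedding two := by
  let f : {y : ℝ // y ≠ 0} → ℝ × Bool := fun y => (Real.log |(y : ℝ)|, decide (0 < (y : ℝ)))
  have hl : Function.LeftInverse f two := by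
    rintro ⟨x, b⟩
    cases b with
    | true => simp [f, two, Real.exp_pos]
    | false => simp [f, two, (Real.exp_pos x).le]
  refine hl.isEmbedding ?_ ?_
  · refine Continuous.prodMk ?_ ?_
    · exact (continuous_subtype_val.abs).log fun y => abs_ne_zero.2 y.2
    · refine continuous_bool_rng true |>.2 ?_
      have h1 : (fun y : {y : ℝ // y ≠ 0} => decide (0 < (y : ℝ))) ⁻¹' {true} =
          {y : {y : ℝ // y ≠ 0} | 0 < (y : ℝ)} := by
        ext y; simp
      rw [h1]
      refine ⟨?_, isOpen_lt continuous_const continuous_subtype_val⟩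
      have h2 : {y : {y : ℝ // y ≠ 0} | 0 < (y : ℝ)} = {y : {y : ℝ // y ≠ 0} | 0 ≤ (y : ℝ)} := by
        ext y
        constructor
        · intro (h : 0 < (y : ℝ))
          exact h.le
        · intro (h : 0 ≤ (y : ℝ))
          exact lt_of_le_of_ne h y.2.symm
      rw [h2]
      exact isClosed_le continuous_const continuous_subtype_val
  · rw [continuous_prod_of_discrete_right]
    rintro (_ | _)
    · exact (Real.continuous_exp.neg).subtype_mk _
    · exact Real.continuous_exp.subtype_mk _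

/-- **Theorem (ZFC).** If an infinite set of reals `X` satisfies `S₁(Ω, Γ)` but not
`S₁((𝒪ₙ)ₙ, Γ)`, then there is a set of reals `Y` satisfying `S₁(Ω, Γ)`, hence `S₁(Ω, T)`, but not
`S₁((𝒪ₙ)ₙ, T)`. -/
theorem result (X : Set ℝ) (hX : X.Infinite)
    (hγ : S1 (fun _ => OmegaCovers X) (GammaCovers X))
    (hs : ¬ S1 (fun n => OpenNCovers X n) (GammaCovers X)) :
    ∃ Y : Set ℝ, Y.Infinite ∧ S1 (fun _ => OmegaCovers Y) (GammaCovers Y) ∧
      S1 (fun _ => OmegaCovers Y) (TauCovers Y) ∧
      ¬ S1 (fun n => OpenNCovers Y n) (TauCovers Y) := by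
  have : Infinite X := hX.to_subtype
  let φ : X × Bool → ℝ := fun p => (two ((p.1 : ℝ), p.2) : ℝ)
  have hφ : IsEmbedding φ :=
    IsEmbedding.subtypeVal.comp (two_embedding.comp (IsEmbedding.subtypeVal.prodMap IsEmbedding.id))
  let e : range φ ≃ₜ X × Bool := hφ.toHomeomorph.symm
  have hG := gamma_double e hγ
  exact ⟨range φ, infinite_range_of_injective hφ.injective, hG, S1_mono gamma_subset_tau hG,
    fun h => hs (strong_of_double e h)⟩

end Pool.Agent.Results.MP_a930b8_gt.TauDoubling
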