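import Pool.Agent.H62.SelTop

/-!
# `S₁((𝒪ₙ)ₙ, T)` is strictly stronger than `S₁(Ω, T)`

Under the continuum hypothesis there is an infinite set of reals which is a `γ`-set (it satisfies
`S₁(Ω, Γ)`, hence `S₁(Ω, T)`) but does not satisfy `S₁((𝒪ₙ)ₙ, T)`.
-/

set_option autoImplicit false

open Set Filter Topology Pool.Agent.H62.Sel

namespace Pool.Agent.Results.MP_a930b8_gt.TauStrictCH

/-- coding of `(ℕ → ℕ) × Bool` into the Cantor space -/
noncomputable def code (p : (ℕ → ℕ) × Bool) : ℕ → Bool :=
  fun n => match n with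
    | 0 => p.2
    | n + 1 => decide (p.1 n.unpair.1 = n.unpair.2)

lemma code_continuous : Continuous code := by
  refine continuous_pi fun n => ?_
  cases n with
  | zero => exact continuous_snd
  | succ n =>
    have h : (fun p : (ℕ → ℕ) × Bool => code p (n + 1)) =
        (fun m : ℕ => decide (m = n.unpair.2)) ∘ fun p : (ℕ → ℕ) × Bool => p.1 n.unpair.1 := rfl
    rw [h]
    exact continuous_of_discreteTopology.comp ((continuous_apply _).comp continuous_fst)

lemma code_injective : Function.Injective code := by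
  rintro ⟨x, b⟩ ⟨y, c⟩ h
  have h0 : b = c := congrFun h 0
  refine Prod.ext (funext fun m => ?_) h0
  have h1 := congrFun h (Nat.pair m (x m) + 1)
  simp only [code, Nat.unpair_pair, decide_true] at h1
  exact (of_decide_eq_true h1.symm).symm

theorem result (hCH : Cardinal.continuum.{0} = Cardinal.aleph 1) :
    ∃ X : Set ℝ, X.Infinite ∧
      S1 (fun _ => OmegaCovers X) (GammaCovers X) ∧
      S1 (fun _ => OmegaCovers X) (TauCovers X) ∧
      ¬ S1 (fun n => OpenNCovers X n) (TauCovers X) ∧
      ¬ S1 (fun n => OpenNCovers X (n + 1)) (TauCovers X) := by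
  classical
  obtain ⟨X, hXP, hQX, hXS, hXz⟩ := exists_X hCH
  -- the compact set carrying `X`
  let K : Set ((ℕ → ℕ) × Bool) := P0 ×ˢ univ
  have hK : IsCompact K := by
    have h1 : IsCompact P0 := by
      have : P0 = Set.pi univ fun n => Set.Iic (n + 1) := by
        ext x
        exact ⟨fun h n _ => h n, fun h n => h n trivial⟩
      rw [this]
      exact isCompact_univ_pi fun n => (Set.finite_Iic _).isCompact
    exact h1.prod isCompact_univ
  have : CompactSpace K := isCompact_iff_compactSpace.1 hK
  let f : (ℕ → ℕ) × Bool → ℝ := fun p => (cantorSetHomeomorphNatToBool.symm (code p) : ℝ)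
  have hfc : Continuous f :=
    continuous_subtype_val.comp (cantorSetHomeomorphNatToBool.symm.continuous.comp code_continuous)
  have hfi : Function.Injective f := fun p q h =>
    code_injective (cantorSetHomeomorphNatToBool.symm.injective (Subtype.val_injective h))
  let φ : K → ℝ := fun p => f p
  have hφ : IsClosedEmbedding φ :=
    Continuous.isClosedEmbedding (hfc.comp continuous_subtype_val)
      (hfi.comp Subtype.val_injective)
  let Y : Set ℝ := φ '' {p | (p : (ℕ → ℕ) × Bool).1 ∈ X}
  have hYpre : ∀ y : Y, ∃ p : K, (p : (ℕ → ℕ) × Bool).1 ∈ X ∧ φ p = y := fun y => y.2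
  choose ρ hρX hρ using hYpre
  have hρind : IsInducing ρ := by
    have h1 : φ ∘ ρ = (Subtype.val : Y → ℝ) := funext hρ
    rw [← hφ.isInducing.of_comp_iff, h1]
    exact IsInducing.subtypeVal
  have hρinj : Function.Injective ρ := by
    intro y y' h
    apply Subtype.ext
    rw [← hρ y, ← hρ y', h]
  let ψ : Y → (ℕ → ℕ) × Bool := fun y => ρ y
  have hψ : IsInducing ψ := IsInducing.subtypeVal.comp hρind
  have hψinj : Function.Injective ψ := Subtype.val_injective.comp hρinj
  have hψran : range ψ = {p | p.1 ∈ X} := by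
    ext p
    constructor
    · rintro ⟨y, rfl⟩
      exact hρX y
    · intro hp
      have hpK : p ∈ K := ⟨hXP hp, mem_univ _⟩
      refine ⟨⟨φ ⟨p, hpK⟩, ⟨p, hpK⟩, hp, rfl⟩, ?_⟩
      have h1 := hφ.injective (hρ ⟨φ ⟨p, hpK⟩, ⟨p, hpK⟩, hp, rfl⟩)
      exact congrArg Subtype.val h1
  have hG : S1 (fun _ => OmegaCovers Y) (GammaCovers Y) := S1_omega_gamma hψ hψinj hψran hXS
  refine ⟨Y, ?_, hG, S1_mono gamma_subset_tau hG, ?_, ?_⟩
  · -- `Y` is infinite
    have hX : X.Infinite := by
      have h1 : (range fun k : ℕ => fun i : ℕ => if i = k then 1 else 0) ⊆ X := by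
        rintro _ ⟨k, rfl⟩
        refine hQX ⟨fun n => ?_, k + 1, fun n hn => ?_⟩
        · change (if n = k then 1 else 0) ≤ n + 1
          split_ifs <;> omega
        · have : n ≠ k := by omega
          simp [this]
      refine (infinite_range_of_injective ?_).mono h1
      intro k l h
      by_contra hkl
      have := congrFun h k
      simp [hkl] at this
    refine Set.Infinite.image hφ.injective.injOn ?_
    intro hfin
    apply hX
    have h2 : X ⊆ (fun p : K => (p : (ℕ → ℕ) × Bool).1) '' {p | (p : (ℕ → ℕ) × Bool).1 ∈ X} :=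
      fun x hx => ⟨⟨(x, true), hXP hx, mem_univ _⟩, hx, rfl⟩
    exact (hfin.image _).subset h2
  · exact not_S1 hψ.continuous hψran hQX hXz (fun n => n) (fun n => by omega)
  · exact not_S1 hψ.continuous hψran hQX hXz (fun n => n + 1) (fun n => le_rfl)

end Pool.Agent.Results.MP_a930b8_gt.TauStrictCH
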